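import Pool.Agent.Q147.GQ.Main

/-!
# Structure theorem over the field of constants; counting integral vectors
-/

set_option autoImplicit false
set_option linter.unusedSectionVars false

namespace Pool.Agent.Q147.GQ

open Polynomial Module Pool.Agent.Q147.GP IntermediateField

section structure_thm

universe uk uo

variable {k : Type uk} {Ω : Type uo} [Field k] [CharZero k] [Field Ω]
  [Algebra k Ω] [IsAlgClosed Ω]

/-- **Structure theorem with the bound for the dimension.** -/
theorem structure_thm {x : Ω} (hx : Transcendental k x) (D : ℕ) (V : Submodule k Ω)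
    [FiniteDimensional k V] :
    ∃ UU : Set (Submodule k Ω), UU.Finite ∧
      (∀ y, (y ∈ V ∧ RelQ (k := k) (fun _ : Fin 1 => x) D y) ↔ ∃ U ∈ UU, y ∈ U) ∧
      ∀ U ∈ UU, FiniteDimensional k (U ⊔ Submodule.span k {1, x} : Submodule k Ω) ∧
        (∀ y ∈ U ⊔ Submodule.span k {1, x}, RelQ (k := k) (fun _ : Fin 1 => x) D y) ∧
        finrank k (U ⊔ Submodule.span k {1, x} : Submodule k Ω) ≤ 2 * D := by
  have hx' : AlgebraicIndependent k (fun _ : Fin 1 => x) := by
    rw [algebraicIndependent_unique_type_iff]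
    exact hx
  obtain ⟨UU, hUf, hUU⟩ := GQ.exists_subspaces_tot (k := k) one_pos (fun _ : Fin 1 => x) hx' D V
  refine ⟨UU, hUf, hUU, fun U hU => ?_⟩
  have hUV : U ≤ V := fun y hy => ((hUU y).2 ⟨U, hU, hy⟩).1
  have : FiniteDimensional k U := Submodule.finiteDimensional_of_le hUV
  have hfin : FiniteDimensional k (Submodule.span k ({1, x} : Set Ω)) :=
    FiniteDimensional.span_of_finite _ (Set.toFinite _)
  have hfd : FiniteDimensional k (U ⊔ Submodule.span k {1, x} : Submodule k Ω) :=
    Submodule.finiteDimensional_sup _ _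
  have hrel : ∀ y ∈ U ⊔ Submodule.span k {1, x}, RelQ (k := k) (fun _ : Fin 1 => x) D y := by
    intro y hy
    obtain ⟨z, hz, z', hz', rfl⟩ := Submodule.mem_sup.1 hy
    obtain ⟨c, d, rfl⟩ := Submodule.mem_span_pair.1 hz'
    have h1 := RelQ.add one_pos hx' ((hUU z).2 ⟨U, hU, hz⟩).2
      (MvPolynomial.C c + MvPolynomial.C d * MvPolynomial.X 0) (by
        refine (MvPolynomial.totalDegree_add _ _).trans (max_le ?_ ?_)
        · rw [MvPolynomial.totalDegree_C]
          exact Nat.zero_le _
        · refine (MvPolynomial.totalDegree_mul _ _).trans ?_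
          rw [MvPolynomial.totalDegree_C, MvPolynomial.totalDegree_X])
    have h2 : MvPolynomial.aeval (fun _ : Fin 1 => x)
        (MvPolynomial.C c + MvPolynomial.C d * MvPolynomial.X 0) = c • (1 : Ω) + d • x := by
      rw [map_add, map_mul, MvPolynomial.aeval_X, MvPolynomial.aeval_C, MvPolynomial.aeval_C,
        Algebra.smul_def, Algebra.smul_def, mul_one]
    rwa [h2] at h1
  refine ⟨hfd, hrel, finrank_le hx D _ ?_ hrel⟩
  exact Submodule.mem_sup_right (Submodule.subset_span (Or.inr rfl))

end structure_thm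

section count

variable {J : Type*} [Fintype J]

/-- coordinates which determine the elements of a space -/
theorem exists_coords (W : Submodule ℚ (J → ℚ)) :
    ∃ I : Finset J, I.card ≤ finrank ℚ W ∧ ∀ w ∈ W, (∀ j ∈ I, w j = 0) → w = 0 := by
  classical
  let f : J → (W →ₗ[ℚ] ℚ) := fun j => (LinearMap.proj j).comp W.subtype
  obtain ⟨b, hbS, hbspan, hbli⟩ := exists_linearIndependent ℚ (Set.range f)
  have hfin : Finite b := (Set.finite_range f).subset hbS
  have : Fintype b := Fintype.ofFinite b
  have hcard : Fintype.card b ≤ finrank ℚ W := by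
    have h1 := hbli.fintype_card_le_finrank
    have h2 : finrank ℚ (W →ₗ[ℚ] ℚ) = finrank ℚ W := Subspace.dual_finrank_eq
    rwa [h2] at h1
  have hch : ∀ g : b, ∃ j, f j = g := fun g => hbS g.2
  choose c hc using hch
  refine ⟨Finset.univ.image c, Finset.card_image_le.trans hcard, fun w hw h0 => ?_⟩
  have h3 : ∀ g ∈ Submodule.span ℚ b, g ⟨w, hw⟩ = 0 := by
    intro g hg
    refine Submodule.span_induction (p := fun g _ => g ⟨w, hw⟩ = 0) ?_ ?_ ?_ ?_ hg
    · intro g hg
      have h4 := hc ⟨g, hg⟩
      have h5 : f (c ⟨g, hg⟩) ⟨w, hw⟩ = 0 :=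
        h0 _ (Finset.mem_image_of_mem c (Finset.mem_univ _))
      rw [h4] at h5
      exact h5
    · rfl
    · intro g g' _ _ hg hg'
      rw [LinearMap.add_apply, hg, hg', add_zero]
    · intro a g _ hg
      rw [LinearMap.smul_apply, hg, smul_zero]
  funext j
  have h6 : f j ∈ Submodule.span ℚ b := by
    rw [hbspan]
    exact Submodule.subset_span ⟨j, rfl⟩
  exact h3 _ h6

/-- the vector with rational coordinates -/
def castV : (J → ℤ) →+ (J → ℚ) where
  toFun c := fun j => (c j : ℚ)
  map_zero' := by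
    funext j
    simp
  map_add' c d := by
    funext j
    simp

theorem castV_injective : Function.Injective (castV : (J → ℤ) →+ (J → ℚ)) := by
  intro c d h
  funext j
  have h1 : ((c j : ℤ) : ℚ) = (d j : ℚ) := congrFun h j
  exact_mod_cast h1

/-- linear independence over `ℤ` and over `ℚ` -/
theorem castV_indep {r : ℕ} (v : Fin r → (J → ℤ)) :
    LinearIndependent ℚ (fun i => castV (v i)) ↔ LinearIndependent ℤ v := by
  rw [← LinearIndependent.iff_fractionRing ℤ ℚ]
  have h : (fun i => castV (v i)) = (castV : (J → ℤ) →+ (J → ℚ)).toIntLinearMap ∘ v := rfl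
  rw [h]
  exact LinearMap.linearIndependent_iff _ (LinearMap.ker_eq_bot.2 castV_injective)

/-- the integral vectors of a subgroup of rank at most `R` -/
theorem count_box (H : AddSubgroup (J → ℤ)) (R : ℕ)
    (hR : ∀ (r : ℕ) (v : Fin r → (J → ℤ)), (∀ i, v i ∈ H) → LinearIndependent ℤ v → r ≤ R)
    (T : ℕ) :
    {c : J → ℤ | c ∈ H ∧ ∀ j, |c j| ≤ T}.Finite ∧
      {c : J → ℤ | c ∈ H ∧ ∀ j, |c j| ≤ T}.ncard ≤ (2 * T + 1) ^ R := by
  classical
  let W : Submodule ℚ (J → ℚ) := Submodule.span ℚ (castV '' (H : Set (J → ℤ)))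
  have hW : finrank ℚ W ≤ R := by
    obtain ⟨b, hbS, hbspan, hbli⟩ := exists_linearIndependent ℚ (castV '' (H : Set (J → ℤ)))
    have hfin : Finite b := hbli.finite
    have : Fintype b := Fintype.ofFinite b
    have h1 : finrank ℚ W = Fintype.card b := by
      have := finrank_span_eq_card hbli
      rw [Subtype.range_coe, hbspan] at this
      exact this
    rw [h1]
    have hch : ∀ g : b, ∃ c ∈ H, castV c = g := fun g => hbS g.2
    choose c hcH hc using hch
    refine hR _ (fun i => c ((Fintype.equivFin b).symm i)) (fun i => hcH _) ?_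
    rw [← castV_indep]
    have h2 : (fun i => castV (c ((Fintype.equivFin b).symm i))) =
        (fun g : b => (g : J → ℚ)) ∘ (Fintype.equivFin b).symm := by
      funext i
      exact hc _
    rw [h2]
    exact hbli.comp _ (Fintype.equivFin b).symm.injective
  obtain ⟨I, hI, hIW⟩ := exists_coords W
  have hbox : (Set.Finite {c : J → ℤ | c ∈ H ∧ ∀ j, |c j| ≤ T}) := by
    refine (Fintype.piFinset fun _ : J => Finset.Icc (-(T : ℤ)) T).finite_toSet.subset ?_
    rintro c ⟨-, hc⟩
    rw [Finset.mem_coe, Fintype.mem_piFinset]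
    exact fun j => Finset.mem_Icc.2 (abs_le.1 (hc j))
  refine ⟨hbox, ?_⟩
  let P : Finset (I → ℤ) := Fintype.piFinset fun _ : I => Finset.Icc (-(T : ℤ)) T
  have hP : P.card ≤ (2 * T + 1) ^ R := by
    have h1 : ((T : ℤ) + 1 - -(T : ℤ)).toNat = 2 * T + 1 := by omega
    have h0 : P.card = (2 * T + 1) ^ I.card := by
      simp only [P]
      rw [Fintype.card_piFinset, Finset.prod_const, Finset.card_univ, Fintype.card_coe,
        Int.card_Icc, h1]
    rw [h0]
    exact Nat.pow_le_pow_right (by omega) (hI.trans hW)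
  refine le_trans ?_ hP
  rw [← Set.ncard_coe_finset]
  refine Set.ncard_le_ncard_of_injOn (fun c : J → ℤ => fun i : I => c i) ?_ ?_ P.finite_toSet
  · rintro c ⟨-, hc⟩
    rw [Finset.mem_coe, Fintype.mem_piFinset]
    exact fun j => Finset.mem_Icc.2 (abs_le.1 (hc j))
  · rintro c ⟨hc, -⟩ d ⟨hd, -⟩ h
    apply castV_injective
    rw [← sub_eq_zero, ← map_sub]
    refine hIW _ (Submodule.subset_span ⟨c - d, H.sub_mem hc hd, rfl⟩) fun j hj => ?_
    have h1 : c j = d j := congrFun h ⟨j, hj⟩
    change (((c - d) j : ℤ) : ℚ) = 0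
    rw [Pi.sub_apply, h1, sub_self, Int.cast_zero]

/-- the rank of the preimage of a space -/
theorem rank_preimage {Ω : Type*} [AddCommGroup Ω] [Module ℚ Ω] (z : J → Ω) (U : Submodule ℚ Ω)
    [FiniteDimensional ℚ U] {r : ℕ} (v : Fin r → (J → ℤ)) (hli : LinearIndependent ℤ v)
    (hv : ∀ i, ∑ j, ((v i j : ℤ) : ℚ) • z j ∈ U) :
    r + finrank ℚ (Submodule.span ℚ (Set.range z)) ≤ Fintype.card J + finrank ℚ U := by
  classical
  let E : (J → ℚ) →ₗ[ℚ] Ω := Fintype.linearCombination ℚ z
  have hE : ∀ c, E c = ∑ j, c j • z j := fun c => rfl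
  let S : Submodule ℚ (J → ℚ) := Submodule.span ℚ (Set.range fun i => castV (v i))
  have hS : finrank ℚ S = r := by
    have := finrank_span_eq_card ((castV_indep v).2 hli)
    rwa [Fintype.card_fin] at this
  have h1 := LinearMap.finrank_range_add_finrank_ker (E.comp S.subtype)
  have h2 := LinearMap.finrank_range_add_finrank_ker E
  have h3 : LinearMap.range E = Submodule.span ℚ (Set.range z) :=
    Fintype.range_linearCombination ℚ z
  rw [h3, finrank_fintype_fun_eq_card] at h2
  have h4 : finrank ℚ (LinearMap.range (E.comp S.subtype)) ≤ finrank ℚ U := by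
    refine Submodule.finrank_mono ?_
    rintro _ ⟨⟨w, hw⟩, rfl⟩
    have h5 : S ≤ U.comap E := by
      refine Submodule.span_le.2 ?_
      rintro _ ⟨i, rfl⟩
      exact hv i
    exact h5 hw
  have h6 : finrank ℚ (LinearMap.ker (E.comp S.subtype)) ≤ finrank ℚ (LinearMap.ker E) := by
    have hle : (LinearMap.ker (E.comp S.subtype)).map S.subtype ≤ LinearMap.ker E := by
      rintro _ ⟨w, hw, rfl⟩
      exact hw
    have h7 := LinearEquiv.finrank_eq (Submodule.equivMapOfInjective S.subtype
      S.subtype_injective (LinearMap.ker (E.comp S.subtype)))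
    rw [h7]
    exact Submodule.finrank_mono hle
  omega

end count

end Pool.Agent.Q147.GQ
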