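import Mathlib

/-!
# Relations over number fields and over the rational numbers
-/

set_option autoImplicit false

namespace Pool.Agent.Q147.GQ

open Module

theorem totalDegree_map_inj {R S : Type*} [CommSemiring R] [CommSemiring S] {ι : Type*}
    (φ : R →+* S) (hφ : Function.Injective φ) (f : MvPolynomial ι R) :
    (f.map φ).totalDegree = f.totalDegree := by
  simp only [MvPolynomial.totalDegree, MvPolynomial.support_map_of_injective _ hφ]

/-- a relation over a number field of degree `m` gives a relation over the rational numbers -/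
theorem exists_rat_relation (F : IntermediateField ℚ ℂ) [FiniteDimensional ℚ F] {ι : Type*}
    (v : ι → ℂ) (f : MvPolynomial ι F) (hf : f ≠ 0) (h0 : MvPolynomial.aeval v f = 0) :
    ∃ g : MvPolynomial ι ℚ, g ≠ 0 ∧ g.totalDegree ≤ finrank ℚ F * f.totalDegree ∧
      MvPolynomial.aeval v g = 0 := by
  classical
  let A := algebraicClosure ℚ ℂ
  have hA : IsAlgClosed A := (algebraicClosure.isAlgClosure ℚ ℂ).isAlgClosed
  have hFA : F ≤ A := fun z hz => mem_algebraicClosure_iff.2 (by
    have h1 : IsAlgebraic ℚ (⟨z, hz⟩ : F) := Algebra.IsAlgebraic.isAlgebraic _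
    exact h1.algebraMap (A := ℂ))
  let g : MvPolynomial ι A := ∏ σ : F →ₐ[ℚ] A, f.map (σ : F →+* A)
  have hg0 : g ≠ 0 := Finset.prod_ne_zero_iff.2 fun σ _ =>
    (map_ne_zero_iff _ (MvPolynomial.map_injective _ (σ : F →+* A).injective)).2 hf
  have hgd : g.totalDegree ≤ finrank ℚ F * f.totalDegree := by
    refine (MvPolynomial.totalDegree_finsetProd _ _).trans ?_
    refine (Finset.sum_le_card_nsmul _ _ f.totalDegree fun σ _ => ?_).trans ?_
    · exact (totalDegree_map_inj _ (σ : F →+* A).injective f).le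
    · rw [Finset.card_univ, AlgHom.card, smul_eq_mul]
  have hfix : ∀ τ : A ≃ₐ[ℚ] A, g.map (τ : A →+* A) = g := by
    intro τ
    simp only [g]
    rw [map_prod]
    refine Fintype.prod_equiv (Equiv.mk (fun σ : F →ₐ[ℚ] A => (τ : A →ₐ[ℚ] A).comp σ)
      (fun σ : F →ₐ[ℚ] A => (τ.symm : A →ₐ[ℚ] A).comp σ) (fun σ => ?_) (fun σ => ?_)) _ _
      (fun σ => ?_)
    · ext z
      simp
    · ext z
      simp
    · rw [MvPolynomial.map_map]
      rfl
  have hcl : IsAlgClosure ℚ A := algebraicClosure.isAlgClosure ℚ ℂ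
  have hgal : IsGalois ℚ A := IsAlgClosure.isGalois ℚ A
  have hcoef : ∀ s, g.coeff s ∈ Set.range (algebraMap ℚ A) := by
    intro s
    rw [InfiniteGalois.mem_range_algebraMap_iff_fixed]
    intro τ
    have h1 := congrArg (MvPolynomial.coeff s) (hfix τ)
    rw [MvPolynomial.coeff_map] at h1
    exact h1
  obtain ⟨g', hg'⟩ : ∃ g' : MvPolynomial ι ℚ, g'.map (algebraMap ℚ A) = g := by
    have := (MvPolynomial.mem_range_map_iff_coeffs_subset (f := algebraMap ℚ A) (x := g)).2 (by
      intro c hc
      obtain ⟨s, _, rfl⟩ := MvPolynomial.mem_coeffs_iff.1 (Finset.mem_coe.1 hc)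
      exact hcoef s)
    exact this
  refine ⟨g', ?_, ?_, ?_⟩
  · rintro rfl
    exact hg0 (by rw [← hg', map_zero])
  · rw [← hg', totalDegree_map_inj _ (algebraMap ℚ A).injective] at hgd
    exact hgd
  · have h1 : MvPolynomial.aeval v g' = MvPolynomial.eval₂ (algebraMap A ℂ) v g := by
      rw [← hg', MvPolynomial.eval₂_map]
      rfl
    rw [h1]
    simp only [g]
    rw [MvPolynomial.eval₂_prod]
    refine Finset.prod_eq_zero (Finset.mem_univ (IntermediateField.inclusion hFA)) ?_
    rw [MvPolynomial.eval₂_map, ← h0]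
    rfl

end Pool.Agent.Q147.GQ
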