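import Pool.Agent.Q147.GP.PlainMain

/-!
# The structure theorem over a field of constants which is not algebraically closed
-/

set_option autoImplicit false
set_option linter.unusedSectionVars false

namespace Pool.Agent.Q147.GQ

open Polynomial Module Pool.Agent.Q147.GP

universe uk uo

variable {k : Type uk} {Ω : Type uo} [Field k] [CharZero k] [Field Ω]
  [Algebra k Ω] [IsAlgClosed Ω] {n : ℕ}

/-- the number `y` is a root of a nonzero polynomial with coefficients in `k[x]` such that the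
coefficient of `Y ^ s` has total degree at most `D - s` -/
def RelQ (x : Fin n → Ω) (D : ℕ) (y : Ω) : Prop :=
  ∃ G : (MvPolynomial (Fin n) k)[X], G ≠ 0 ∧
    G.eval₂ (MvPolynomial.aeval x : MvPolynomial (Fin n) k →ₐ[k] Ω).toRingHom y = 0 ∧
    ∀ s, G.coeff s ≠ 0 → (G.coeff s).totalDegree + s ≤ D

/-- everything which is needed about the field of algebraic functions of `x` -/
structure Model (x : Fin n → Ω) (K M : Type*) [Field K] [Field M]
    [Algebra (MvPolynomial (Fin n) k) K] [IsFractionRing (MvPolynomial (Fin n) k) K]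
    [Algebra (MvPolynomial (Fin n) k) M] [Algebra K M]
    [IsScalarTower (MvPolynomial (Fin n) k) K M] [IsGalois K M] [Algebra k M]
    [IsScalarTower k (MvPolynomial (Fin n) k) M] where
  /-- the embedding -/
  j : M →ₐ[k] Ω
  hj : ∀ r : MvPolynomial (Fin n) k, j (algebraMap _ M r) = MvPolynomial.aeval x r
  surj : ∀ y : Ω, (∃ G : (MvPolynomial (Fin n) k)[X], G ≠ 0 ∧
    G.eval₂ (MvPolynomial.aeval x : MvPolynomial (Fin n) k →ₐ[k] Ω).toRingHom y = 0) →
    ∃ z : M, j z = y

/-- to prove something about `x` one may use a model -/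
theorem with_model (x : Fin n → Ω) (hx : AlgebraicIndependent k x) {P : Prop}
    (h : ∀ (K : Type uk) (M : Type uo) [Field K] [Field M]
      [Algebra (MvPolynomial (Fin n) k) K] [IsFractionRing (MvPolynomial (Fin n) k) K]
      [Algebra (MvPolynomial (Fin n) k) M] [Algebra K M]
      [IsScalarTower (MvPolynomial (Fin n) k) K M] [IsGalois K M] [Algebra k M]
      [IsScalarTower k (MvPolynomial (Fin n) k) M], Model (k := k) x K M → P) : P := by
  let : Algebra (MvPolynomial (Fin n) k) Ω :=
    (MvPolynomial.aeval x : MvPolynomial (Fin n) k →ₐ[k] Ω).toRingHom.toAlgebra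
  have hinj : Function.Injective (algebraMap (MvPolynomial (Fin n) k) Ω) := hx
  have : FaithfulSMul (MvPolynomial (Fin n) k) Ω := (faithfulSMul_iff_algebraMap_injective _ _).2 hinj
  let : Algebra (FractionRing (MvPolynomial (Fin n) k)) Ω := FractionRing.liftAlgebra _ Ω
  have : IsScalarTower (MvPolynomial (Fin n) k) (FractionRing (MvPolynomial (Fin n) k)) Ω :=
    FractionRing.isScalarTower_liftAlgebra _ Ω
  have : IsScalarTower k (MvPolynomial (Fin n) k) Ω := IsScalarTower.of_algebraMap_eq fun c =>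
    ((MvPolynomial.aeval x : MvPolynomial (Fin n) k →ₐ[k] Ω).commutes c).symm
  have : IsScalarTower k (FractionRing (MvPolynomial (Fin n) k)) Ω :=
    IsScalarTower.of_algebraMap_eq fun c => by
      rw [IsScalarTower.algebraMap_apply k (MvPolynomial (Fin n) k) Ω,
        IsScalarTower.algebraMap_apply k (MvPolynomial (Fin n) k)
          (FractionRing (MvPolynomial (Fin n) k))]
      exact IsScalarTower.algebraMap_apply (MvPolynomial (Fin n) k)
        (FractionRing (MvPolynomial (Fin n) k)) Ω _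
  have : CharZero (FractionRing (MvPolynomial (Fin n) k)) :=
    charZero_of_injective_algebraMap (IsFractionRing.injective (MvPolynomial (Fin n) k) _)
  let K := FractionRing (MvPolynomial (Fin n) k)
  let M := algebraicClosure K Ω
  have : IsScalarTower k (MvPolynomial (Fin n) k) M := IsScalarTower.of_algebraMap_eq fun c =>
    Subtype.ext (IsScalarTower.algebraMap_apply k (MvPolynomial (Fin n) k) Ω c)
  have : IsGalois K M := IsAlgClosure.isGalois K M
  refine h K M ⟨{ M.val.toRingHom with commutes' := fun c => rfl }, fun r => rfl, fun y hy => ?_⟩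
  obtain ⟨G, hG0, hG⟩ := hy
  have h1 : IsAlgebraic (MvPolynomial (Fin n) k) y := ⟨G, hG0, hG⟩
  have h2 : IsAlgebraic K y := (IsFractionRing.isAlgebraic_iff (MvPolynomial (Fin n) k) K Ω).1 h1
  exact ⟨⟨y, mem_algebraicClosure_iff.2 h2⟩, rfl⟩

section use

variable {x : Fin n → Ω} {K : Type uk} {M : Type uo} [Field K] [Field M]
  [Algebra (MvPolynomial (Fin n) k) K] [IsFractionRing (MvPolynomial (Fin n) k) K]
  [Algebra (MvPolynomial (Fin n) k) M] [Algebra K M]
  [IsScalarTower (MvPolynomial (Fin n) k) K M] [IsGalois K M] [Algebra k M]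
  [IsScalarTower k (MvPolynomial (Fin n) k) M]

theorem Model.eval (m : Model (k := k) x K M) (G : (MvPolynomial (Fin n) k)[X]) (z : M) :
    G.eval₂ (MvPolynomial.aeval x : MvPolynomial (Fin n) k →ₐ[k] Ω).toRingHom (m.j z) =
      m.j (G.eval₂ (algebraMap _ M) z) := by
  have h1 : m.j (G.eval₂ (algebraMap _ M) z) =
      G.eval₂ ((m.j : M →+* Ω).comp (algebraMap _ M)) (m.j z) :=
    Polynomial.hom_eval₂ G _ (m.j : M →+* Ω) z
  rw [h1]
  congr 1
  exact RingHom.ext fun r => (m.hj r).symm

end use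

section use

variable {x : Fin n → Ω} {K : Type uk} {M : Type uo} [Field K] [Field M]
  [Algebra (MvPolynomial (Fin n) k) K] [IsFractionRing (MvPolynomial (Fin n) k) K]
  [Algebra (MvPolynomial (Fin n) k) M] [Algebra K M]
  [IsScalarTower (MvPolynomial (Fin n) k) K M] [IsGalois K M] [Algebra k M]
  [IsScalarTower k (MvPolynomial (Fin n) k) M]

theorem Model.relQ_iff (m : Model (k := k) x K M)
    {I : InfPlace k (MvPolynomial (Fin n) k) M}
    (hI : I.d = fun r => r.totalDegree) (D : ℕ) (z : M) :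
    Rel (fun _ : Unit => I) (fun _ => D) (fun _ => 1) z ↔ RelQ (k := k) x D (m.j z) := by
  constructor
  · rintro ⟨G, h0, h1, h2⟩
    refine ⟨G, h0, by rw [m.eval, h1, map_zero], fun s hs => ?_⟩
    have := h2 s hs ()
    rwa [hI, one_mul] at this
  · rintro ⟨G, h0, h1, h2⟩
    refine ⟨G, h0, ?_, fun s hs i => ?_⟩
    · rw [m.eval] at h1
      exact (map_eq_zero_iff m.j m.j.injective).1 h1
    · rw [hI, one_mul]
      exact h2 s hs

theorem Model.liftQ (m : Model (k := k) x K M) {D : ℕ} {y : Ω}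
    (h : RelQ (k := k) x D y) : ∃ z : M, m.j z = y := by
  obtain ⟨G, h0, h1, -⟩ := h
  exact m.surj y ⟨G, h0, h1⟩

end use

/-- **Structure theorem**, total degree. -/
theorem exists_subspaces_tot (hn : 0 < n) (x : Fin n → Ω) (hx : AlgebraicIndependent k x)
    (D : ℕ) (W : Submodule k Ω) [FiniteDimensional k W] :
    ∃ UU : Set (Submodule k Ω), UU.Finite ∧
      ∀ y, (y ∈ W ∧ RelQ (k := k) x D y) ↔ ∃ U ∈ UU, y ∈ U := by
  refine with_model x hx fun K M _ _ _ _ _ _ _ _ _ _ m => ?_
  obtain ⟨I, hI⟩ := exists_totPlace (k := k) (M := M) (inj_RM (MvPolynomial (Fin n) k) K M)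
    ⟨0, hn⟩
  have hinj : Function.Injective m.j.toLinearMap := m.j.injective
  have : FiniteDimensional k (W.comap m.j.toLinearMap) :=
    FiniteDimensional.of_injective (V₂ := W)
      ((m.j.toLinearMap.comp (W.comap m.j.toLinearMap).subtype).codRestrict W fun z => z.2)
      fun z z' h => Subtype.ext (hinj (congrArg Subtype.val h))
  obtain ⟨UU, hf, hUU⟩ := exists_subspaces K (fun _ : Unit => I) (fun _ => D) (fun _ => 1)
    (W.comap m.j.toLinearMap)
  refine ⟨(fun U => U.map m.j.toLinearMap) '' UU, hf.image _, fun y => ⟨?_, ?_⟩⟩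
  · rintro ⟨hy, hr⟩
    obtain ⟨z, rfl⟩ := m.liftQ hr
    obtain ⟨U, hU, hz⟩ := (hUU z).1 ⟨hy, (m.relQ_iff hI D z).2 hr⟩
    exact ⟨_, ⟨U, hU, rfl⟩, ⟨z, hz, rfl⟩⟩
  · rintro ⟨_, ⟨U, hU, rfl⟩, ⟨z, hz, rfl⟩⟩
    obtain ⟨h1, h2⟩ := (hUU z).2 ⟨U, hU, hz⟩
    exact ⟨h1, (m.relQ_iff hI D z).1 h2⟩

theorem RelQ.add (hn : 0 < n) {x : Fin n → Ω} (hx : AlgebraicIndependent k x) {D : ℕ} {y : Ω}
    (h : RelQ (k := k) x D y) (p : MvPolynomial (Fin n) k) (hp : p.totalDegree ≤ 1) :
    RelQ (k := k) x D (y + MvPolynomial.aeval x p) := by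
  refine with_model x hx fun K M _ _ _ _ _ _ _ _ _ _ m => ?_
  obtain ⟨I, hI⟩ := exists_totPlace (k := k) (M := M) (inj_RM (MvPolynomial (Fin n) k) K M)
    ⟨0, hn⟩
  obtain ⟨z, rfl⟩ := m.liftQ h
  have h1 := ((m.relQ_iff hI D z).2 h).add p fun i => by
    by_cases hp0 : p = 0
    · rw [hp0, map_zero, map_zero]
      exact zero_le
    · rw [I.hd p hp0, hI]
      exact pow_le_pow_right₀ I.hτ.le hp
  have h2 := (m.relQ_iff hI D _).1 h1
  rwa [map_add, m.hj] at h2

/-- relations of bounded total degree as polynomials in `n + 1` variables -/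
theorem relQ_iff (x : Fin n → Ω) (D : ℕ) (y : Ω) :
    RelQ (k := k) x D y ↔ ∃ f : MvPolynomial (Fin (n + 1)) k, f ≠ 0 ∧ f.totalDegree ≤ D ∧
      MvPolynomial.aeval (Fin.cons y x : Fin (n + 1) → Ω) f = 0 := by
  have hdeg : ∀ m : Fin (n + 1) →₀ ℕ, (m.sum fun _ e => e) = (m.tail.sum fun _ e => e) + m 0 := by
    intro m
    rw [Finsupp.sum_fintype _ _ (fun _ => rfl), Finsupp.sum_fintype _ _ (fun _ => rfl),
      Fin.sum_univ_succ, add_comm]
    rfl
  have key : ∀ f : MvPolynomial (Fin (n + 1)) k, f.totalDegree ≤ D ↔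
      ∀ s, (MvPolynomial.finSuccEquiv k n f).coeff s ≠ 0 →
        ((MvPolynomial.finSuccEquiv k n f).coeff s).totalDegree + s ≤ D := by
    intro f
    rw [MvPolynomial.totalDegree, Finset.sup_le_iff]
    constructor
    · intro h s hs
      have h1 : ∀ m ∈ ((MvPolynomial.finSuccEquiv k n f).coeff s).support,
          (m.sum fun _ e => e) + s ≤ D := by
        intro m hm
        rw [MvPolynomial.mem_support_iff, MvPolynomial.finSuccEquiv_coeff_coeff] at hm
        have := h _ (MvPolynomial.mem_support_iff.2 hm)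
        rwa [hdeg, Finsupp.tail_cons, Finsupp.cons_zero] at this
      obtain ⟨m₀, hm₀⟩ := MvPolynomial.support_nonempty.2 hs
      have h2 := h1 m₀ hm₀
      have h3 : ((MvPolynomial.finSuccEquiv k n f).coeff s).totalDegree ≤ D - s := by
        rw [MvPolynomial.totalDegree, Finset.sup_le_iff]
        intro m hm
        have := h1 m hm
        omega
      omega
    · intro h m hm
      have h1 : (((MvPolynomial.finSuccEquiv k n f).coeff (m 0)).coeff m.tail) ≠ 0 := by
        rw [MvPolynomial.finSuccEquiv_coeff_coeff, Finsupp.cons_tail]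
        exact MvPolynomial.mem_support_iff.1 hm
      have h2 : (MvPolynomial.finSuccEquiv k n f).coeff (m 0) ≠ 0 := by
        intro h0
        rw [h0, MvPolynomial.coeff_zero] at h1
        exact h1 rfl
      have h3 := h (m 0) h2
      have h4 := MvPolynomial.le_totalDegree (MvPolynomial.mem_support_iff.2 h1)
      rw [hdeg]
      omega
  constructor
  · rintro ⟨G, h0, h1, h2⟩
    obtain ⟨f, rfl⟩ := (MvPolynomial.finSuccEquiv k n).surjective G
    refine ⟨f, fun h => h0 (by rw [h, map_zero]), (key f).2 h2, ?_⟩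
    rw [← eval_finSucc]
    exact h1
  · rintro ⟨f, h0, h1, h2⟩
    refine ⟨MvPolynomial.finSuccEquiv k n f, ?_, ?_, (key f).1 h1⟩
    · exact (map_ne_zero_iff _ (MvPolynomial.finSuccEquiv k n).injective).2 h0
    · rw [eval_finSucc]
      exact h2

end Pool.Agent.Q147.GQ
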