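import Pool.Agent.Q147.GQ.Field2

/-!
# Coordinates over the algebraic closure of the constants
-/

set_option autoImplicit false
set_option linter.unusedSectionVars false

namespace Pool.Agent.Q147.GQ

open Polynomial Module Pool.Agent.Q147.GP IntermediateField

universe uk uo

variable {k : Type uk} {Ω : Type uo} [Field k] [CharZero k] [Field Ω]
  [Algebra k Ω] [IsAlgClosed Ω]

/-- the coordinates of an element of `L` are elements of `L` -/
theorem coord_mem (L : IntermediateField k Ω) {ι : Type*} [Fintype ι] (u : ι → Ω)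
    (hu : ∀ i, u i ∈ L) (hli : LinearIndependent (algebraicClosure k Ω) u)
    (a : ι → algebraicClosure k Ω) (hy : ∑ i, (a i : Ω) * u i ∈ L) (i : ι) : (a i : Ω) ∈ L := by
  have : CharZero L := charZero_of_injective_algebraMap (algebraMap k L).injective
  let M := algebraicClosure L Ω
  have hgal : IsGalois L M := IsAlgClosure.isGalois L M
  have haM : ∀ i, (a i : Ω) ∈ M := by
    intro i
    have h1 : IsAlgebraic k (a i : Ω) := mem_algebraicClosure_iff.1 (a i).2
    exact mem_algebraicClosure_iff.2 (h1.extendScalars (algebraMap k L).injective)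
  have key : (⟨(a i : Ω), haM i⟩ : M) ∈ (⊥ : IntermediateField L M) := by
    rw [InfiniteGalois.mem_bot_iff_fixed]
    intro σ
    -- the conjugates of the coordinates
    have hb : ∀ j, IsAlgebraic k ((σ ⟨(a j : Ω), haM j⟩ : M) : Ω) := by
      intro j
      have h1 : IsAlgebraic k (a j : Ω) := mem_algebraicClosure_iff.1 (a j).2
      obtain ⟨P, hP0, hP⟩ := h1
      refine ⟨P, hP0, ?_⟩
      have h2 : aeval (⟨(a j : Ω), haM j⟩ : M) P = 0 := by
        apply Subtype.ext
        have h3 : ((aeval (⟨(a j : Ω), haM j⟩ : M) P : M) : Ω) = aeval (a j : Ω) P :=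
          (aeval_algHom_apply (M.val.restrictScalars k) (⟨(a j : Ω), haM j⟩ : M) P).symm
        rw [h3, hP]
        rfl
      have h4 : aeval (σ ⟨(a j : Ω), haM j⟩) P = 0 := by
        have h5 := aeval_algHom_apply ((σ : M →ₐ[L] M).restrictScalars k)
          (⟨(a j : Ω), haM j⟩ : M) P
        rw [h2, map_zero] at h5
        exact h5
      have h6 : aeval ((σ ⟨(a j : Ω), haM j⟩ : M) : Ω) P =
          ((aeval (σ ⟨(a j : Ω), haM j⟩) P : M) : Ω) :=
        aeval_algHom_apply (M.val.restrictScalars k) (σ ⟨(a j : Ω), haM j⟩) P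
      rw [h6, h4]
      rfl
    let b : ι → algebraicClosure k Ω := fun j =>
      ⟨((σ ⟨(a j : Ω), haM j⟩ : M) : Ω), mem_algebraicClosure_iff.2 (hb j)⟩
    have hsum : ∑ j, (b j : Ω) * u j = ∑ j, (a j : Ω) * u j := by
      let yM : M := ∑ j, (⟨(a j : Ω), haM j⟩ : M) * algebraMap L M ⟨u j, hu j⟩
      have hyM : (yM : Ω) = ∑ j, (a j : Ω) * u j := by
        have : M.val yM = ∑ j, (a j : Ω) * u j := by
          rw [map_sum]
          rfl
        exact this
      have hyL : yM = algebraMap L M ⟨_, hy⟩ := Subtype.ext hyM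
      have h7 : σ yM = yM := by
        rw [hyL, σ.commutes]
      have h8 : σ yM = ∑ j, σ (⟨(a j : Ω), haM j⟩ : M) * algebraMap L M ⟨u j, hu j⟩ := by
        rw [map_sum]
        refine Finset.sum_congr rfl fun j _ => ?_
        rw [map_mul, σ.commutes]
      have h9 : ((σ yM : M) : Ω) = ∑ j, (b j : Ω) * u j := by
        rw [h8]
        have : M.val (∑ j, σ (⟨(a j : Ω), haM j⟩ : M) * algebraMap L M ⟨u j, hu j⟩) =
            ∑ j, (b j : Ω) * u j := by
          rw [map_sum]
          rfl
        exact this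
      rw [← h9, h7, hyM]
    have h10 : ∑ j, (b j - a j) • u j = 0 := by
      have : ∑ j, (b j - a j) • u j = ∑ j, (b j : Ω) * u j - ∑ j, (a j : Ω) * u j := by
        rw [← Finset.sum_sub_distrib]
        refine Finset.sum_congr rfl fun j _ => ?_
        rw [← sub_mul, Algebra.smul_def]
        rfl
      rw [this, hsum, sub_self]
    have h11 := Fintype.linearIndependent_iff.1 hli _ h10 i
    have h12 : b i = a i := sub_eq_zero.1 h11
    have h13 : (b i : Ω) = (a i : Ω) := by rw [h12]
    exact Subtype.ext h13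
  obtain ⟨l, hl⟩ := IntermediateField.mem_bot.1 key
  have h13 : (l : Ω) = a i := congrArg Subtype.val hl
  rw [← h13]
  exact l.2

end Pool.Agent.Q147.GQ
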