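import Pool.Agent.Q147.GQ.Base

/-!
# Fields of constants
-/

set_option autoImplicit false
set_option linter.unusedSectionVars false

namespace Pool.Agent.Q147.GQ

open Polynomial Module Pool.Agent.Q147.GP IntermediateField
open scoped IntermediateField.algebraAdjoinAdjoin

universe uk uo

variable {k : Type uk} {Ω : Type uo} [Field k] [CharZero k] [Field Ω]
  [Algebra k Ω] [IsAlgClosed Ω]

instance algClosed : IsAlgClosed (algebraicClosure k Ω) :=
  (algebraicClosure.isAlgClosure k Ω).isAlgClosed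

/-- a relation of degree at most `a` in `x` over the algebraic closure of `k` -/
def RelA (k : Type uk) [Field k] [CharZero k] [Algebra k Ω] (x : Ω) (a : ℕ) (y : Ω) : Prop :=
  RelX (k := algebraicClosure k Ω) (fun _ : Fin 1 => x) (fun _ => a) (fun _ => 0) y

/-- polynomials whose values at `y` are the coefficients of a relation -/
theorem relX_of {A : Type*} [Field A] [IsAlgClosed A] [CharZero A] [Algebra A Ω] {x y : Ω} {a : ℕ}
    (C : Fin (a + 1) → A[X])
    (h0 : ∑ j, aeval y (C j) * x ^ (j : ℕ) = 0) (hne : ∃ j, C j ≠ 0) :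
    RelX (k := A) (fun _ : Fin 1 => x) (fun _ => a) (fun _ => 0) y := by
  classical
  let G : (MvPolynomial (Fin 1) A)[X] := ∑ j : Fin (a + 1),
    (C j).map (MvPolynomial.C : A →+* MvPolynomial (Fin 1) A) *
      Polynomial.C ((MvPolynomial.X 0 : MvPolynomial (Fin 1) A) ^ (j : ℕ))
  have hcoef : ∀ s, G.coeff s = ∑ j : Fin (a + 1),
      MvPolynomial.C ((C j).coeff s) * (MvPolynomial.X 0 : MvPolynomial (Fin 1) A) ^ (j : ℕ) := by
    intro s
    rw [finsetSum_coeff]
    refine Finset.sum_congr rfl fun j _ => ?_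
    rw [Polynomial.coeff_mul_C, Polynomial.coeff_map]
  have hcc : ∀ s (j : Fin (a + 1)), (G.coeff s).coeff (Finsupp.single 0 (j : ℕ)) =
      (C j).coeff s := by
    intro s j
    rw [hcoef, MvPolynomial.coeff_sum, Finset.sum_eq_single j]
    · rw [MvPolynomial.coeff_C_mul, MvPolynomial.coeff_X_pow, if_pos rfl, mul_one]
    · intro i _ hij
      rw [MvPolynomial.coeff_C_mul, MvPolynomial.coeff_X_pow, if_neg, mul_zero]
      intro h
      have := Finsupp.single_injective _ h
      exact hij (Fin.ext this)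
    · intro h
      exact absurd (Finset.mem_univ _) h
  refine ⟨G, ?_, ?_, ?_⟩
  · intro hG
    obtain ⟨j, hj⟩ := hne
    apply hj
    ext s
    rw [← hcc s j, hG]
    simp
  · rw [← h0]
    simp only [G]
    rw [Polynomial.eval₂_finsetSum]
    refine Finset.sum_congr rfl fun j _ => ?_
    rw [Polynomial.eval₂_mul, Polynomial.eval₂_C, Polynomial.eval₂_map]
    congr 1
    · rw [Polynomial.aeval_def]
      congr 1
      ext c
      simp
    · simp
  · intro s _ i
    obtain rfl : i = 0 := Subsingleton.elim _ _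
    rw [zero_mul, add_zero, hcoef]
    refine (MvPolynomial.degreeOf_sum_le _ _ _).trans (Finset.sup_le fun j _ => ?_)
    refine (MvPolynomial.degreeOf_C_mul_le _ _ _).trans ?_
    refine (MvPolynomial.degreeOf_pow_le _ _ _).trans ?_
    rw [MvPolynomial.degreeOf_X_self, mul_one]
    exact Nat.lt_succ_iff.1 j.2

theorem relA_of {x y : Ω} {a : ℕ} (C : Fin (a + 1) → (algebraicClosure k Ω)[X])
    (h0 : ∑ j, aeval y (C j) * x ^ (j : ℕ) = 0) (hne : ∃ j, C j ≠ 0) : RelA k x a y :=
  relX_of C h0 hne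

/-- products of constants and powers of `x` -/
theorem indep_prod {x y : Ω} {a : ℕ} (hno : ¬ RelA k x a y) {g : ℕ} (α : Fin g → Ω)
    (hα : ∀ i, α i ∈ algebraicClosure k Ω) (hli : LinearIndependent k α) :
    LinearIndependent k⟮y⟯ (fun p : Fin g × Fin (a + 1) => α p.1 * x ^ (p.2 : ℕ)) := by
  classical
  rw [← LinearIndependent.iff_fractionRing (R := Algebra.adjoin k {y}) (K := k⟮y⟯),
    Fintype.linearIndependent_iff]
  intro r hr
  have hp : ∀ p, ∃ q : k[X], aeval y q = (r p : Ω) := by
    intro p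
    have h3 : (r p : Ω) ∈ Algebra.adjoin k {y} := (r p).2
    have h4 : (r p : Ω) ∈ (aeval y : k[X] →ₐ[k] Ω).range := by
      rw [← Algebra.adjoin_singleton_eq_range_aeval]
      exact h3
    exact h4
  choose q hq using hp
  let C : Fin (a + 1) → (algebraicClosure k Ω)[X] := fun j =>
    ∑ i, Polynomial.C (⟨α i, hα i⟩ : algebraicClosure k Ω) *
      (q (i, j)).map (algebraMap k (algebraicClosure k Ω))
  have hC : ∀ j, aeval y (C j) = ∑ i, α i * r (i, j) := by
    intro j
    rw [map_sum]
    refine Finset.sum_congr rfl fun i _ => ?_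
    rw [map_mul, aeval_C, aeval_map_algebraMap, hq]
    rfl
  have h0 : ∑ j, aeval y (C j) * x ^ (j : ℕ) = 0 := by
    have h1 : ∑ j : Fin (a + 1), ∑ i : Fin g, (r (i, j) : Ω) * (α i * x ^ (j : ℕ)) = 0 := by
      have h2 := hr
      rw [Fintype.sum_prod_type_right] at h2
      exact h2
    rw [← h1]
    refine Finset.sum_congr rfl fun j _ => ?_
    rw [hC, Finset.sum_mul]
    refine Finset.sum_congr rfl fun i _ => ?_
    ring
  have hC0 : ∀ j, C j = 0 := by
    by_contra hcon
    push Not at hcon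
    exact hno (relA_of C h0 hcon)
  rintro ⟨i, j⟩
  have h2 : ∀ s, (q (i, j)).coeff s = 0 := by
    intro s
    have h3 : ∑ i, (q (i, j)).coeff s • α i = 0 := by
      have h4 := congrArg (fun P => ((Polynomial.coeff P s : algebraicClosure k Ω) : Ω)) (hC0 j)
      simp only [C, finsetSum_coeff, Polynomial.coeff_C_mul, Polynomial.coeff_map,
        Polynomial.coeff_zero] at h4
      push_cast at h4
      rw [← h4]
      refine Finset.sum_congr rfl fun i _ => ?_
      rw [Algebra.smul_def, mul_comm]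
    exact Fintype.linearIndependent_iff.1 hli _ h3 i
  have h5 : q (i, j) = 0 := Polynomial.ext fun s => by rw [h2, Polynomial.coeff_zero]
  have h6 : ((r (i, j) : Algebra.adjoin k {y}) : Ω) = 0 := by
    rw [← hq, h5, map_zero]
  exact_mod_cast h6

/-- relations of bounded total degree between two numbers are symmetric -/
theorem RelQ.symm' {x y : Ω} {D : ℕ} (h : RelQ (k := k) (fun _ : Fin 1 => x) D y) :
    RelQ (k := k) (fun _ : Fin 1 => y) D x := by
  rw [relQ_iff] at h ⊢
  obtain ⟨f, h0, hd, hf⟩ := h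
  refine ⟨MvPolynomial.rename (Equiv.swap (0 : Fin 2) 1) f, ?_,
    (MvPolynomial.totalDegree_rename_le _ _).trans hd, ?_⟩
  · exact (map_ne_zero_iff _ (MvPolynomial.rename_injective _ (Equiv.injective _))).2 h0
  · rw [MvPolynomial.aeval_rename, ← hf]
    congr 2
    funext i
    fin_cases i
    · change (Fin.cons x (fun _ : Fin 1 => y) : Fin 2 → Ω) ((Equiv.swap (0 : Fin 2) 1) 0) = _
      rw [Equiv.swap_apply_left]
      rfl
    · change (Fin.cons x (fun _ : Fin 1 => y) : Fin 2 → Ω) ((Equiv.swap (0 : Fin 2) 1) 1) = _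
      rw [Equiv.swap_apply_right]
      rfl

/-- the degree of the field generated by two numbers -/
theorem degree_le {x y : Ω} {D : ℕ} (hy : Transcendental k y)
    (h : RelQ (k := k) (fun _ : Fin 1 => x) D y) :
    IsIntegral k⟮y⟯ x ∧ finrank k⟮y⟯ k⟮y⟯⟮x⟯ ≤ D := by
  obtain ⟨G, hG0, hG, hGd⟩ := RelQ.symm' h
  let φ : MvPolynomial (Fin 1) k →ₐ[k] k⟮y⟯ := MvPolynomial.aeval fun _ => AdjoinSimple.gen k y
  have hcomp : ∀ r : MvPolynomial (Fin 1) k, algebraMap k⟮y⟯ Ω (φ r) =
      MvPolynomial.aeval (fun _ : Fin 1 => y) r := by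
    intro r
    have h1 : ((IsScalarTower.toAlgHom k k⟮y⟯ Ω).comp φ) =
        MvPolynomial.aeval (fun _ : Fin 1 => y) := by
      apply MvPolynomial.algHom_ext
      intro i
      simp [φ]
    rw [← h1]
    rfl
  have hinj : Function.Injective φ := by
    rw [injective_iff_map_eq_zero]
    intro r hr
    have h1 := hcomp r
    rw [hr, map_zero] at h1
    have h2 : AlgebraicIndependent k (fun _ : Fin 1 => y) := by
      rw [algebraicIndependent_unique_type_iff]
      exact hy
    exact (injective_iff_map_eq_zero _).1 h2 r h1.symm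
  have hP0 : G.map φ.toRingHom ≠ 0 :=
    (Polynomial.map_ne_zero_iff (f := φ.toRingHom) hinj).2 hG0
  have hP : aeval x (G.map φ.toRingHom) = 0 := by
    rw [aeval_def, eval₂_map, ← hG]
    congr 1
    exact RingHom.ext hcomp
  have hint : IsIntegral k⟮y⟯ x := IsAlgebraic.isIntegral ⟨_, hP0, hP⟩
  refine ⟨hint, ?_⟩
  rw [adjoin.finrank hint]
  refine (natDegree_le_of_dvd (minpoly.dvd _ _ hP) hP0).trans ?_
  refine (natDegree_map_le).trans ?_
  rw [natDegree_le_iff_coeff_eq_zero]
  intro N hN
  by_contra hne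
  have := hGd N hne
  omega

end Pool.Agent.Q147.GQ
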