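import Pool.Agent.Q147.GQ.Field

/-!
# Fields of constants: counting
-/

set_option autoImplicit false
set_option linter.unusedSectionVars false

namespace Pool.Agent.Q147.GQ

open Polynomial Module Pool.Agent.Q147.GP IntermediateField

universe uk uo

variable {k : Type uk} {Ω : Type uo} [Field k] [CharZero k] [Field Ω]
  [Algebra k Ω] [IsAlgClosed Ω]

/-- independent elements of a simple extension -/
theorem card_le_aux {F : Type*} [Field F] [Algebra F Ω] {x : Ω} (hint : IsIntegral F x)
    {ι : Type*} [Fintype ι] (v : ι → Ω) (hv : ∀ i, v i ∈ F⟮x⟯) (hli : LinearIndependent F v) :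
    Fintype.card ι ≤ finrank F F⟮x⟯ := by
  have hfd : FiniteDimensional F F⟮x⟯ := adjoin.finiteDimensional hint
  have h2 : LinearIndependent F (fun i => (⟨v i, hv i⟩ : F⟮x⟯)) :=
    LinearIndependent.of_comp (F⟮x⟯.val.toLinearMap) hli
  exact h2.fintype_card_le_finrank

theorem adjoin_pair_le (x y : Ω) {z : Ω} (hz : z ∈ adjoin k {x, y}) : z ∈ (k⟮y⟯)⟮x⟯ := by
  have h := adjoin_simple_adjoin_simple k y x
  have h2 : z ∈ (k⟮y⟯⟮x⟯).restrictScalars k := by
    rw [h, Set.pair_comm]
    exact hz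
  exact h2

/-- the number of constants in a field of algebraic functions of bounded degree -/
theorem card_le {x y : Ω} {D a : ℕ} (hy : Transcendental k y)
    (h : RelQ (k := k) (fun _ : Fin 1 => x) D y) (hno : ¬ RelA k x a y) {g : ℕ} (α : Fin g → Ω)
    (hα : ∀ i, α i ∈ algebraicClosure k Ω) (hα' : ∀ i, α i ∈ adjoin k {x, y})
    (hli : LinearIndependent k α) : g * (a + 1) ≤ D := by
  obtain ⟨hint, hD⟩ := degree_le hy h
  have hx : x ∈ k⟮y⟯⟮x⟯ := mem_adjoin_simple_self _ _
  have h3 := card_le_aux hint (fun p : Fin g × Fin (a + 1) => α p.1 * x ^ (p.2 : ℕ))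
    (fun p => mul_mem (adjoin_pair_le x y (hα' p.1)) (pow_mem hx _)) (indep_prod hno α hα hli)
  rw [Fintype.card_prod, Fintype.card_fin, Fintype.card_fin] at h3
  exact h3.trans hD

end Pool.Agent.Q147.GQ
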