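import Pool.Agent.Q147.GQ.Field2

/-!
# Generic elements of a space of algebraic functions
-/

set_option autoImplicit false
set_option linter.unusedSectionVars false

namespace Pool.Agent.Q147.GQ

open Polynomial Module Pool.Agent.Q147.GP IntermediateField

universe uk uo

variable {k : Type uk} {Ω : Type uo} [Field k] [CharZero k] [Field Ω]
  [Algebra k Ω] [IsAlgClosed Ω]

/-- an intermediate field as a space over `k` -/
def toSp (F : IntermediateField k Ω) (L : IntermediateField F Ω) (M : IntermediateField F L) :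
    Submodule k Ω where
  carrier := {z | ∃ h : z ∈ L, (⟨z, h⟩ : L) ∈ M}
  add_mem' := by
    rintro z z' ⟨h, hM⟩ ⟨h', hM'⟩
    exact ⟨add_mem h h', add_mem hM hM'⟩
  zero_mem' := ⟨zero_mem L, zero_mem M⟩
  smul_mem' := by
    rintro c z ⟨h, hM⟩
    have e : c • z = algebraMap F Ω (algebraMap k F c) * z := by
      rw [Algebra.smul_def]
      rfl
    have h1 : algebraMap F Ω (algebraMap k F c) ∈ L := L.algebraMap_mem _
    refine ⟨by rw [e]; exact mul_mem h1 h, ?_⟩
    have h2 : (⟨c • z, by rw [e]; exact mul_mem h1 h⟩ : L) =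
        algebraMap F L (algebraMap k F c) * ⟨z, h⟩ := Subtype.ext e
    rw [h2]
    exact mul_mem (M.algebraMap_mem _) hM

/-- **Generic elements.** -/
theorem exists_generic {x : Ω} (hx : Transcendental k x) (U : Submodule k Ω)
    [FiniteDimensional k U] (hxU : x ∈ U) (halg : ∀ y ∈ U, IsAlgebraic k⟮x⟯ y)
    {BB : Set (Submodule k Ω)} (hBB : BB.Finite) (hB : ∀ S ∈ BB, ¬ U ≤ S) :
    ∃ y ∈ U, (∀ S ∈ BB, y ∉ S) ∧ Transcendental k y ∧ ∀ z ∈ U, z ∈ adjoin k {x, y} := by
  classical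
  let b := Module.finBasis k U
  let T : Set Ω := Set.range fun i => (b i : Ω)
  have hTfin : T.Finite := Set.finite_range _
  have : Finite T := hTfin
  let L := adjoin k⟮x⟯ T
  have hfd : FiniteDimensional k⟮x⟯ L := by
    apply finiteDimensional_adjoin
    rintro _ ⟨i, rfl⟩
    exact (halg _ (b i).2).isIntegral
  have hfin : Finite (IntermediateField k⟮x⟯ L) :=
    Field.finite_intermediateField_of_exists_primitive_element _ _
      (Field.exists_primitive_element k⟮x⟯ L)
  have hUL : ∀ z ∈ U, z ∈ L := by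
    intro z hz
    have h1 := b.sum_repr ⟨z, hz⟩
    have h2 : ∑ i, b.repr ⟨z, hz⟩ i • (b i : Ω) = z := by
      have := congrArg (Submodule.subtype U) h1
      rw [map_sum] at this
      simpa using this
    rw [← h2]
    refine sum_mem fun i _ => ?_
    rw [Algebra.smul_def]
    refine mul_mem ?_ (subset_adjoin _ _ ⟨i, rfl⟩)
    exact L.algebraMap_mem (algebraMap k k⟮x⟯ _)
  let SK : Submodule k Ω := Subalgebra.toSubmodule (algebraicClosure k Ω).toSubalgebra
  have hSK : ¬ U ≤ SK := fun h => hx (mem_algebraicClosure_iff.1 (h hxU))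
  let MM : Set (Submodule k Ω) := (fun M => toSp k⟮x⟯ L M) '' {M | M ≠ ⊤}
  have hMM : MM.Finite := (Set.toFinite _).image _
  have hM : ∀ S ∈ MM, ¬ U ≤ S := by
    rintro _ ⟨M, hMt, rfl⟩ hle
    apply hMt
    rw [eq_top_iff]
    rintro ⟨z, hz⟩ -
    have h1 : L ≤ IntermediateField.lift M := by
      refine adjoin_le_iff.2 ?_
      rintro _ ⟨i, rfl⟩
      obtain ⟨h2, h3⟩ := hle (b i).2
      exact (IntermediateField.mem_lift (⟨_, h2⟩ : L)).2 h3
    exact (IntermediateField.mem_lift (⟨z, hz⟩ : L)).1 (h1 hz)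
  obtain ⟨t, ht⟩ := not_cover (k := k) (E := U)
    (BB := (fun S : Submodule k Ω => S.comap U.subtype) '' (BB ∪ {SK} ∪ MM))
    (((hBB.union (Set.finite_singleton _)).union hMM).image _) (by
      rintro _ ⟨S, hS, rfl⟩ htop
      have hle : U ≤ S := by
        intro z hz
        have h1 : (⟨z, hz⟩ : U) ∈ (fun S : Submodule k Ω => S.comap U.subtype) S := by
          rw [htop]
          trivial
        exact h1
      rcases hS with (hS | rfl) | hS
      · exact hB S hS hle
      · exact hSK hle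
      · exact hM S hS hle)
  have ht' : ∀ S ∈ BB ∪ {SK} ∪ MM, (t : Ω) ∉ S := fun S hS h => ht _ ⟨S, hS, rfl⟩ h
  refine ⟨t, t.2, fun S hS => ht' S (Or.inl (Or.inl hS)), ?_, ?_⟩
  · intro h
    exact ht' SK (Or.inl (Or.inr rfl)) (mem_algebraicClosure_iff.2 h)
  · intro z hz
    let M0 : IntermediateField k⟮x⟯ L := adjoin k⟮x⟯ {(⟨t, hUL t t.2⟩ : L)}
    have hM0 : M0 = ⊤ := by
      by_contra hne
      exact ht' _ (Or.inr ⟨M0, hne, rfl⟩)
        ⟨hUL t t.2, mem_adjoin_simple_self _ _⟩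
    have h1 : (⟨z, hUL z hz⟩ : L) ∈ M0 := by
      rw [hM0]
      trivial
    have h2 : M0.map L.val ≤ adjoin k⟮x⟯ {(t : Ω)} := by
      rw [adjoin_map]
      refine adjoin_le_iff.2 ?_
      rintro _ ⟨w, rfl, rfl⟩
      exact mem_adjoin_simple_self _ _
    have h3 : z ∈ (k⟮x⟯)⟮(t : Ω)⟯ := h2 ⟨_, h1, rfl⟩
    have h4 : z ∈ ((k⟮x⟯)⟮(t : Ω)⟯).restrictScalars k := h3
    rw [adjoin_simple_adjoin_simple] at h4
    exact h4

end Pool.Agent.Q147.GQ
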