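import Pool.Agent.Q147.GQ.Coord
import Pool.Agent.Q147.GQ.Generic

/-!
# Spaces of numbers which are related in bounded degree to a given number
-/

set_option autoImplicit false
set_option linter.unusedSectionVars false

namespace Pool.Agent.Q147.GQ

open Polynomial Module Pool.Agent.Q147.GP IntermediateField

universe uk uo

variable {k : Type uk} {Ω : Type uo} [Field k] [CharZero k] [Field Ω]
  [Algebra k Ω] [IsAlgClosed Ω]

theorem trans_closure {x : Ω} (hx : Transcendental k x) :
    Transcendental (algebraicClosure k Ω) x := by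
  intro h
  have halg : Algebra.IsAlgebraic k (algebraicClosure k Ω) :=
    (algebraicClosure.isAlgClosure k Ω).isAlgebraic
  exact hx (h.restrictScalars k)

/-- a relation of degree `0` in `x` -/
theorem not_relA_zero {x y : Ω} (hy : Transcendental k y) : ¬ RelA k x 0 y := by
  rintro ⟨G, hG0, hG, hGd⟩
  apply trans_closure hy
  have hconst : ∀ s, G.coeff s = MvPolynomial.C ((G.coeff s).coeff 0) := by
    intro s
    by_cases hs : G.coeff s = 0
    · rw [hs]
      simp
    · have h1 : (G.coeff s).degreeOf 0 + 0 * s ≤ 0 := hGd s hs 0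
      have h2 : (G.coeff s).degreeOf 0 = 0 := by omega
      refine MvPolynomial.ext _ _ fun m => ?_
      rw [MvPolynomial.coeff_C]
      split_ifs with hm
      · rw [hm]
      · by_contra hne
        have h3 := MvPolynomial.degreeOf_le_iff.1 h2.le m (MvPolynomial.mem_support_iff.2 hne)
        apply hm
        refine Finsupp.ext fun i => ?_
        obtain rfl : i = 0 := Subsingleton.elim _ _
        rw [Finsupp.zero_apply]
        omega
  let P : (algebraicClosure k Ω)[X] := G.map MvPolynomial.constantCoeff
  have hGP : G = P.map MvPolynomial.C := by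
    ext1 s
    rw [hconst s, coeff_map, coeff_map]
    rfl
  refine ⟨P, ?_, ?_⟩
  · intro h
    apply hG0
    rw [hGP, h, Polynomial.map_zero]
  · rw [hGP, eval₂_map] at hG
    rw [aeval_def, ← hG]
    congr 1
    ext c
    simp

/-- elements of a space are algebraic functions of `x` -/
theorem isAlgebraic_of {x y : Ω} {D : ℕ} (hx : Transcendental k x)
    (h : RelQ (k := k) (fun _ : Fin 1 => x) D y) : IsAlgebraic k⟮x⟯ y :=
  (degree_le hx (RelQ.symm' h)).1.isAlgebraic

/-- **The dimension of a space of numbers which are related in degree at most `D` to `x`.** -/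
theorem finrank_le {x : Ω} (hx : Transcendental k x) (D : ℕ) (U : Submodule k Ω)
    [FiniteDimensional k U] (hxU : x ∈ U)
    (hrel : ∀ y ∈ U, RelQ (k := k) (fun _ : Fin 1 => x) D y) : finrank k U ≤ 2 * D := by
  classical
  have halg : ∀ y ∈ U, IsAlgebraic k⟮x⟯ y := fun y hy => isAlgebraic_of hx (hrel y hy)
  let L : IntermediateField k Ω := adjoin k (U : Set Ω)
  let κ : IntermediateField k Ω := algebraicClosure k Ω ⊓ L
  have hL : ∀ y : Ω, (∀ z ∈ U, z ∈ adjoin k {x, y}) → L ≤ adjoin k {x, y} := fun y h =>
    adjoin_le_iff.2 fun z hz => h z hz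
  -- the field of constants
  obtain ⟨y₀, hy₀, -, hty₀, hgy₀⟩ := exists_generic hx U hxU halg (BB := ∅) Set.finite_empty
    (fun S hS => absurd hS (Set.notMem_empty S))
  have hrank : Module.rank k κ ≤ D := by
    refine rank_le fun s hs => ?_
    have h1 : LinearIndependent k (fun i : Fin s.card => ((s.equivFin.symm i : κ) : Ω)) := by
      have h2 := (hs.comp _ s.equivFin.symm.injective).map' κ.val.toLinearMap
        (LinearMap.ker_eq_bot.2 κ.val.injective)
      exact h2
    have h3 := card_le hty₀ (hrel _ hy₀) (not_relA_zero (x := x) hty₀) _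
      (fun i => (s.equivFin.symm i : κ).2.1)
      (fun i => hL y₀ hgy₀ (s.equivFin.symm i : κ).2.2) h1
    omega
  have hfdκ : FiniteDimensional k κ := by
    rw [FiniteDimensional, ← Module.rank_lt_aleph0_iff]
    exact hrank.trans_lt Cardinal.natCast_lt_aleph0
  have hκD : finrank k κ ≤ D := by
    have := Cardinal.toNat_le_toNat hrank Cardinal.natCast_lt_aleph0
    rwa [Cardinal.toNat_natCast] at this
  have hκ0 : 0 < finrank k κ := finrank_pos
  -- the space over the algebraic closure of `k`
  let W : Submodule (algebraicClosure k Ω) Ω := Submodule.span _ (U : Set Ω)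
  have hUW : ∀ z ∈ U, z ∈ W := fun z hz => Submodule.subset_span hz
  have hWfd : FiniteDimensional (algebraicClosure k Ω) W := by
    let b := Module.finBasis k U
    have hle : W ≤ Submodule.span (algebraicClosure k Ω) (Set.range fun i => (b i : Ω)) := by
      refine Submodule.span_le.2 fun z hz => ?_
      have h1 := b.sum_repr ⟨z, hz⟩
      have h2 : ∑ i, b.repr ⟨z, hz⟩ i • (b i : Ω) = z := by
        have := congrArg (Submodule.subtype U) h1
        rw [map_sum] at this
        simpa using this
      rw [SetLike.mem_coe, ← h2]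
      refine sum_mem fun i _ => ?_
      have h3 : b.repr ⟨z, hz⟩ i • (b i : Ω) =
          (algebraMap k (algebraicClosure k Ω) (b.repr ⟨z, hz⟩ i)) • (b i : Ω) := by
        rw [algebraMap_smul]
      rw [h3]
      exact Submodule.smul_mem _ _ (Submodule.subset_span ⟨i, rfl⟩)
    have := FiniteDimensional.span_of_finite (algebraicClosure k Ω)
      (Set.finite_range fun i => (b i : Ω))
    exact Submodule.finiteDimensional_of_le hle
  have hxK : AlgebraicIndependent (algebraicClosure k Ω) (fun _ : Fin 1 => x) := by
    rw [algebraicIndependent_unique_type_iff]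
    exact trans_closure hx
  obtain ⟨UU, hUf, hUU⟩ := exists_subspaces_omega (k := algebraicClosure k Ω)
    (fun _ : Fin 1 => x) hxK (fun _ => D / finrank k κ) (fun _ => 0) W
  have hex : ∃ V ∈ UU, U ≤ V.restrictScalars k := by
    by_contra hcon
    push Not at hcon
    obtain ⟨y, hy, hyB, hty, hgy⟩ := exists_generic hx U hxU halg
      (BB := (fun V : Submodule (algebraicClosure k Ω) Ω => V.restrictScalars k) '' UU)
      (hUf.image _) (by
        rintro _ ⟨V, hV, rfl⟩
        exact hcon V hV)
    have hno : ¬ RelA k x (D / finrank k κ) y := by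
      intro h
      obtain ⟨V, hV, hyV⟩ := (hUU y).1 ⟨hUW y hy, h⟩
      exact hyB _ ⟨V, hV, rfl⟩ hyV
    let bκ := Module.finBasis k κ
    have h1 := card_le hty (hrel _ hy) hno (fun i => ((bκ i : κ) : Ω))
      (fun i => (bκ i).2.1) (fun i => hL y hgy (bκ i).2.2)
      (bκ.linearIndependent.map' κ.val.toLinearMap
        (LinearMap.ker_eq_bot.2 κ.val.injective))
    exact absurd h1 (not_le.2 (Nat.lt_mul_div_succ D hκ0))
  obtain ⟨V, hV, hUV⟩ := hex
  have hWV : W ≤ V := Submodule.span_le.2 hUV
  have hdim : finrank (algebraicClosure k Ω) W ≤ D / finrank k κ + 1 := by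
    rcases Nat.eq_zero_or_pos (finrank (algebraicClosure k Ω) W) with h0 | h0
    · rw [h0]
      exact Nat.zero_le _
    let bW := Module.finBasis (algebraicClosure k Ω) W
    have h1 := dim_plain_omega (k := algebraicClosure k Ω) (fun _ : Fin 1 => x) hxK
      (fun _ => D / finrank k κ) (fun _ => 0) (fun j => (bW j : Ω))
      (bW.linearIndependent.map' W.subtype (Submodule.ker_subtype W))
      (fun t => ((hUU _).2 ⟨V, hV, hWV (Submodule.sum_mem _ fun j _ =>
        W.smul_mem _ (bW j).2)⟩).2) h0
    rwa [Fin.prod_univ_one] at h1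
  -- coordinates
  obtain ⟨b, hbU, hbspan, hbli⟩ := exists_linearIndependent (algebraicClosure k Ω) (U : Set Ω)
  have hbfin : b.Finite := by
    have h1 : LinearIndependent (algebraicClosure k Ω)
        (fun i : b => (⟨(i : Ω), hUW _ (hbU i.2)⟩ : W)) :=
      LinearIndependent.of_comp W.subtype hbli
    have := h1.finite
    exact Set.toFinite b
  have : Fintype b := hbfin.fintype
  have hbcard : Fintype.card b = finrank (algebraicClosure k Ω) W := by
    have h1 := finrank_span_eq_card hbli
    rw [Subtype.range_coe, hbspan] at h1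
    exact h1.symm
  let Φ : (b → κ) →ₗ[k] Ω := ∑ i : b,
    ((LinearMap.mulRight k (i : Ω)).comp κ.val.toLinearMap).comp (LinearMap.proj i)
  have hΦ : ∀ a : b → κ, Φ a = ∑ i : b, ((a i : κ) : Ω) * (i : Ω) := by
    intro a
    simp [Φ]
  have hUΦ : U ≤ LinearMap.range Φ := by
    intro y hy
    have h1 : y ∈ Submodule.span (algebraicClosure k Ω) (Set.range fun i : b => (i : Ω)) := by
      rw [Subtype.range_coe, hbspan]
      exact hUW y hy
    obtain ⟨c, hc⟩ := (Submodule.mem_span_range_iff_exists_fun _).1 h1
    have hc' : ∑ i : b, (c i : Ω) * (i : Ω) = y := hc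
    have hcL : ∀ i, (c i : Ω) ∈ L := coord_mem L (fun i : b => (i : Ω))
      (fun i => subset_adjoin _ _ (hbU i.2)) hbli c (by
        rw [hc']
        exact subset_adjoin _ _ hy)
    refine ⟨fun i => ⟨c i, ⟨(c i).2, hcL i⟩⟩, ?_⟩
    rw [hΦ]
    exact hc'
  have h1 : finrank k U ≤ finrank k (LinearMap.range Φ) := Submodule.finrank_mono hUΦ
  have h2 : finrank k (LinearMap.range Φ) ≤ finrank k (b → κ) := LinearMap.finrank_range_le Φ
  have h3 : finrank k (b → κ) = Fintype.card b * finrank k κ := by
    rw [Module.finrank_pi_fintype]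
    simp
  have h4 : finrank k κ * (D / finrank k κ) ≤ D := Nat.mul_div_le D _
  calc finrank k U ≤ Fintype.card b * finrank k κ := h1.trans (h2.trans h3.le)
    _ ≤ (D / finrank k κ + 1) * finrank k κ :=
      Nat.mul_le_mul_right _ (hbcard.le.trans hdim)
    _ = finrank k κ * (D / finrank k κ) + finrank k κ := by ring
    _ ≤ 2 * D := by omega

end Pool.Agent.Q147.GQ
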